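import Pool.Agent.Helper97.FS.Stmts

set_option autoImplicit false

namespace Pool.Agent.Helper97.FS

open Finset MeasureTheory Filter Topology
open scoped ComplexConjugate
open Pool.Agent.Helper97.Sub

variable {d : ℕ}

theorem west_ab_append (U V : List (Fin d)) : ab (U ++ V) = ab U + ab V := by
  funext a
  simp [ab, List.count_append]

theorem west_ab_nil : ab ([] : List (Fin d)) = 0 := by
  funext a
  simp [ab]

theorem west_len_add (L : Fin d → ℝ) (i j : Fin d → ℤ) : len L (i + j) = len L i + len L j := by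
  simp only [len, Pi.add_apply, Int.cast_add, mul_add, sum_add_distrib]

theorem west_len_zero (L : Fin d → ℝ) : len L 0 = 0 := by simp [len]

theorem west_len_flat {σ : Fin d → List (Fin d)} {M : Matrix (Fin d) (Fin d) ℤ} {θ : ℝ}
    {L f : Fin d → ℝ} (h : PFD σ M θ L f) (V : List (Fin d)) :
    len L (ab (V.flatMap σ)) = θ * len L (ab V) := by
  induction V with
  | nil => simp [west_ab_nil, west_len_zero]
  | cons c V ih =>
    rw [List.flatMap_cons, west_ab_append, west_len_add, ih,
      show (c :: V) = [c] ++ V from rfl, west_ab_append, west_len_add, mul_add]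
    congr 1
    have h1 : len L (ab (σ c)) = ∑ b, L b * (M b c : ℝ) := by
      unfold len ab
      refine sum_congr rfl fun b _ => ?_
      rw [h.cntM b c]
    have h2 : len L (ab [c]) = L c := by
      unfold len ab
      rw [sum_eq_single c]
      · simp
      · intro b _ hb
        have : List.count b [c] = 0 := by
          rw [List.count_eq_zero]
          simpa using hb
        rw [this]
        simp
      · simp
    rw [h1, h2, h.left c]

theorem west_len_T {σ : Fin d → List (Fin d)} {M : Matrix (Fin d) (Fin d) ℤ} {θ : ℝ}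
    {L f : Fin d → ℝ} (h : PFD σ M θ L f) (k : ℕ) (a : Fin d) :
    len L (ab (T σ k a)) = θ ^ k * L a := by
  induction k with
  | zero =>
    rw [T_zero, pow_zero, one_mul]
    unfold len ab
    rw [sum_eq_single a]
    · simp
    · intro b _ hb
      have : List.count b [a] = 0 := by
        rw [List.count_eq_zero]
        simpa using hb
      rw [this]
      simp
    · simp
  | succ k ih =>
    rw [T_add, show T σ 1 = σ from funext (T_one σ), west_len_flat h, ih]
    ring

theorem west_len_le {L : Fin d → ℝ} {A : ℝ} (hA : ∀ a, L a ≤ A) (V : List (Fin d)) :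
    len L (ab V) ≤ A * V.length := by
  induction V with
  | nil => simp [west_ab_nil, west_len_zero]
  | cons c V ih =>
    rw [show (c :: V) = [c] ++ V from rfl, west_ab_append, west_len_add, List.length_append]
    have h2 : len L (ab [c]) = L c := by
      unfold len ab
      rw [sum_eq_single c]
      · simp
      · intro b _ hb
        have : List.count b [c] = 0 := by
          rw [List.count_eq_zero]
          simpa using hb
        rw [this]
        simp
      · simp
    rw [h2]
    have := hA c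
    push_cast
    simp only [List.length_singleton, Nat.cast_one]
    linarith

/-- lower bound for the length of the tiles -/
theorem west_low {σ : Fin d → List (Fin d)} {M : Matrix (Fin d) (Fin d) ℤ} {θ : ℝ}
    {L f : Fin d → ℝ} (h : PFD σ M θ L f) :
    ∃ c₀ : ℝ, 0 < c₀ ∧ ∀ k a, c₀ * θ ^ k ≤ ((T σ k a).length : ℝ) := by
  rcases isEmpty_or_nonempty (Fin d) with he | hne
  · exact ⟨1, one_pos, fun k a => (he.false a).elim⟩
  obtain ⟨a0, -, ha0⟩ := exists_min_image univ L univ_nonempty
  obtain ⟨a1, -, ha1⟩ := exists_max_image univ L univ_nonempty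
  refine ⟨L a0 / L a1, div_pos (h.Lpos _) (h.Lpos _), fun k a => ?_⟩
  have h1 := west_len_T h k a
  have h2 := west_len_le (L := L) (A := L a1) (fun a => ha1 a (mem_univ _)) (T σ k a)
  rw [h1] at h2
  have h3 := ha0 a (mem_univ _)
  have h4 : 0 < L a1 := h.Lpos a1
  have h5 : 0 < θ ^ k := pow_pos (by linarith [h.one_lt]) _
  rw [div_mul_eq_mul_div, div_le_iff₀ h4]
  nlinarith

/-- mean of the prefix sums -/
noncomputable def west_Fb (y : Fin d → ℂ) (c : Fin d) (V : List (Fin d)) : ℂ :=
  (∑ u ∈ range V.length, Fc y c V u) / (V.length : ℂ)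

theorem west_step {σ : Fin d → List (Fin d)} {θ : ℝ} {L : Fin d → ℝ}
    {gam : Fin d → Fin d → (Fin d → ℤ) → ℝ} {C0 CU c₀ : ℝ} (hθ : 1 < θ) (hc₀ : 0 < c₀)
    (hCU : 0 ≤ CU) (hlow : ∀ k a, c₀ * θ ^ k ≤ ((T σ k a).length : ℝ)) (y : Fin d → ℂ)
    (hU : ∀ (k : ℕ) (b : Fin d),
        ∑ u ∈ range ((T σ k b).length + 1), ∑ u' ∈ range ((T σ k b).length + 1), ∑ c,
          ‖Fc y c (T σ k b) u - Fc y c (T σ k b) u'‖ ^ 2 ≤
            CU * θ ^ (3 * k) * VV gam L y (C0 * θ ^ k))
    (k : ℕ) (a c' c : Fin d) (t : ℕ)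
    (ht : t + (T σ k c').length ≤ (T σ (k + 1) a).length) :
    ‖(∑ u ∈ Ico t (t + (T σ k c').length), Fc y c (T σ (k + 1) a) u) /
        ((T σ k c').length : ℂ) - west_Fb y c (T σ (k + 1) a)‖ ≤
      Real.sqrt (CU * θ / c₀ ^ 2) * Real.sqrt (θ ^ (k + 1) * VV gam L y (C0 * θ ^ (k + 1))) := by
  set W := T σ (k + 1) a with hW
  set ℓ := W.length with hℓ
  set m := (T σ k c').length with hm
  have hθ0 : 0 < θ := by linarith
  have hmR : (0:ℝ) < m := lt_of_lt_of_le (by positivity) (hlow k c')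
  have hℓR : (0:ℝ) < ℓ := lt_of_lt_of_le (by positivity) (hlow (k + 1) a)
  have hm0 : 0 < m := by exact_mod_cast hmR
  have hℓ0 : 0 < ℓ := by exact_mod_cast hℓR
  have h1 := mean_sub_sq_le (Fc y c W) (Ico t (t + m)) (range ℓ)
    ⟨t, by rw [mem_Ico]; omega⟩ ⟨0, by rw [mem_range]; omega⟩
  rw [Nat.card_Ico, card_range, Nat.add_sub_cancel_left] at h1
  have h2 : ∑ u ∈ Ico t (t + m), ∑ v ∈ range ℓ, ‖Fc y c W u - Fc y c W v‖ ^ 2 ≤
      CU * θ ^ (3 * (k + 1)) * VV gam L y (C0 * θ ^ (k + 1)) := by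
    refine le_trans ?_ (hU (k + 1) a)
    calc ∑ u ∈ Ico t (t + m), ∑ v ∈ range ℓ, ‖Fc y c W u - Fc y c W v‖ ^ 2
        ≤ ∑ u ∈ range (ℓ + 1), ∑ v ∈ range ℓ, ‖Fc y c W u - Fc y c W v‖ ^ 2 := by
          apply sum_le_sum_of_subset_of_nonneg
          · intro x hx
            rw [mem_Ico] at hx
            rw [mem_range]
            omega
          · intros; positivity
      _ ≤ ∑ u ∈ range (ℓ + 1), ∑ v ∈ range (ℓ + 1), ‖Fc y c W u - Fc y c W v‖ ^ 2 := by
          refine sum_le_sum fun u _ => ?_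
          apply sum_le_sum_of_subset_of_nonneg
          · intro x hx
            rw [mem_range] at hx ⊢
            omega
          · intros; positivity
      _ ≤ ∑ u ∈ range (ℓ + 1), ∑ v ∈ range (ℓ + 1), ∑ c, ‖Fc y c W u - Fc y c W v‖ ^ 2 := by
          refine sum_le_sum fun u _ => sum_le_sum fun v _ => ?_
          exact single_le_sum (f := fun c => ‖Fc y c W u - Fc y c W v‖ ^ 2)
            (fun c _ => by positivity) (mem_univ c)
  have h0 : 0 ≤ ∑ u ∈ Ico t (t + m), ∑ v ∈ range ℓ, ‖Fc y c W u - Fc y c W v‖ ^ 2 :=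
    sum_nonneg fun u _ => sum_nonneg fun v _ => by positivity
  have h3 : (∑ u ∈ Ico t (t + m), ∑ v ∈ range ℓ, ‖Fc y c W u - Fc y c W v‖ ^ 2) /
      ((m : ℝ) * ℓ) ≤ (CU * θ / c₀ ^ 2) * (θ ^ (k + 1) * VV gam L y (C0 * θ ^ (k + 1))) := by
    have h4 : (c₀ * θ ^ k) * (c₀ * θ ^ (k + 1)) ≤ (m : ℝ) * ℓ :=
      mul_le_mul (hlow k c') (hlow (k + 1) a) (by positivity) hmR.le
    calc (∑ u ∈ Ico t (t + m), ∑ v ∈ range ℓ, ‖Fc y c W u - Fc y c W v‖ ^ 2) / ((m : ℝ) * ℓ)
        ≤ (∑ u ∈ Ico t (t + m), ∑ v ∈ range ℓ, ‖Fc y c W u - Fc y c W v‖ ^ 2) /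
            ((c₀ * θ ^ k) * (c₀ * θ ^ (k + 1))) :=
          div_le_div_of_nonneg_left h0 (by positivity) h4
      _ ≤ (CU * θ ^ (3 * (k + 1)) * VV gam L y (C0 * θ ^ (k + 1))) /
            ((c₀ * θ ^ k) * (c₀ * θ ^ (k + 1))) := by
          apply div_le_div_of_nonneg_right h2 (by positivity)
      _ = _ := by
          field_simp
          ring
  have h5 := Real.sqrt_le_sqrt (h1.trans h3)
  rw [Real.sqrt_sq (norm_nonneg _), Real.sqrt_mul (by positivity)] at h5
  exact h5

theorem west_main {σ : Fin d → List (Fin d)} {θ : ℝ} {L : Fin d → ℝ}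
    {gam : Fin d → Fin d → (Fin d → ℤ) → ℝ} {C0 CU c₀ : ℝ} (hσ : ∀ a, σ a ≠ []) (hθ : 1 < θ)
    (hc₀ : 0 < c₀) (hCU : 0 ≤ CU) (hlow : ∀ k a, c₀ * θ ^ k ≤ ((T σ k a).length : ℝ))
    (y : Fin d → ℂ) (hy : ∀ a, ‖y a‖ = 1)
    (hU : ∀ (k : ℕ) (b : Fin d),
        ∑ u ∈ range ((T σ k b).length + 1), ∑ u' ∈ range ((T σ k b).length + 1), ∑ c,
          ‖Fc y c (T σ k b) u - Fc y c (T σ k b) u'‖ ^ 2 ≤
            CU * θ ^ (3 * k) * VV gam L y (C0 * θ ^ k)) (k : ℕ) (b c : Fin d) :
    ‖west_Fb y c (T σ k b)‖ ≤ Real.sqrt (CU * θ / c₀ ^ 2) *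
      ∑ i ∈ range (k + 1), Real.sqrt (θ ^ i * VV gam L y (C0 * θ ^ i)) ∧
    ‖EW σ y k b c - west_Fb y c (T σ k b)‖ ≤ 1 + Real.sqrt (CU * θ / c₀ ^ 2) *
      ∑ i ∈ range (k + 1), Real.sqrt (θ ^ i * VV gam L y (C0 * θ ^ i)) := by
  have hθ0 : 0 < θ := by linarith
  have hpos : ∀ k a, 0 < ((T σ k a).length : ℝ) := fun k a =>
    lt_of_lt_of_le (by positivity) (hlow k a)
  have hyw : ∀ U : List (Fin d), ‖yw y U‖ = 1 := by
    intro U
    induction U with
    | nil => simp [yw]
    | cons x U ih =>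
      simp only [yw, List.map_cons, List.prod_cons] at ih ⊢
      rw [norm_mul, hy, ih, one_mul]
  induction k generalizing b with
  | zero =>
    have h0 : west_Fb y c (T σ 0 b) = 0 := by
      simp [west_Fb, T_zero, Fc, WS]
    rw [h0, norm_zero, sub_zero]
    constructor
    · positivity
    · have h1 : ‖EW σ y 0 b c‖ ≤ 1 := by
        rw [EW, T_zero, WS, WS, mul_zero, add_zero]
        by_cases hbc : b = c
        · subst hbc; simp
        · rw [Pi.single_eq_of_ne hbc]; simp
      have h2 : 0 ≤ Real.sqrt (CU * θ / c₀ ^ 2) *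
        ∑ i ∈ range (0 + 1), Real.sqrt (θ ^ i * VV gam L y (C0 * θ ^ i)) := by positivity
      linarith
  | succ k ih =>
    set κ := Real.sqrt (CU * θ / c₀ ^ 2) with hκ
    rw [sum_range_succ, mul_add]
    constructor
    · obtain ⟨c', v, hcv⟩ := List.exists_cons_of_ne_nil (hσ b)
      have hT : T σ (k + 1) b = T σ k c' ++ v.flatMap (T σ k) := by
        rw [T_succ, hcv, List.flatMap_cons]
      have h1 := west_step hθ hc₀ hCU hlow y hU k b c' c 0 (by rw [hT, List.length_append]; omega)
      rw [zero_add, ← range_eq_Ico] at h1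
      have h2 : (∑ u ∈ range (T σ k c').length, Fc y c (T σ (k + 1) b) u) /
          ((T σ k c').length : ℂ) = west_Fb y c (T σ k c') := by
        rw [west_Fb]
        congr 1
        refine sum_congr rfl fun u hu => ?_
        rw [mem_range] at hu
        rw [Fc, Fc, hT, List.take_append_of_le_length hu.le]
      rw [h2] at h1
      have h3 := (ih c').1
      have e : west_Fb y c (T σ (k + 1) b) = west_Fb y c (T σ k c') -
        (west_Fb y c (T σ k c') - west_Fb y c (T σ (k + 1) b)) := by ring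
      rw [e]
      exact (norm_sub_le _ _).trans (add_le_add h3 h1)
    · obtain ⟨v, c', hcv⟩ : ∃ v c, σ b = v ++ [c] :=
        ⟨(σ b).dropLast, (σ b).getLast (hσ b), (List.dropLast_append_getLast (hσ b)).symm⟩
      set U := v.flatMap (T σ k) with hUdef
      have hT : T σ (k + 1) b = U ++ T σ k c' := by
        rw [T_succ, hcv, List.flatMap_append]; simp [hUdef]
      have hmC : ((T σ k c').length : ℂ) ≠ 0 := by exact_mod_cast (hpos k c').ne'
      have h1 := west_step hθ hc₀ hCU hlow y hU k b c' c U.length (by rw [hT, List.length_append])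
      have h2 : (∑ u ∈ Ico U.length (U.length + (T σ k c').length), Fc y c (T σ (k + 1) b) u) /
          ((T σ k c').length : ℂ) = EW σ y (k + 1) b c -
            yw y U * (EW σ y k c' c - west_Fb y c (T σ k c')) := by
        rw [sum_Ico_eq_sum_range, Nat.add_sub_cancel_left]
        have h3 : ∀ u ∈ range (T σ k c').length, Fc y c (T σ (k + 1) b) (U.length + u) =
            WS y (Pi.single c 1) U + yw y U * Fc y c (T σ k c') u := by
          intro u _
          rw [Fc, hT, List.take_length_add_append, WS_append, Fc]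
        rw [sum_congr rfl h3, sum_add_distrib, sum_const, card_range, nsmul_eq_mul, ← mul_sum]
        have h4 : EW σ y (k + 1) b c = WS y (Pi.single c 1) U + yw y U * EW σ y k c' c := by
          rw [EW, hT, WS_append, EW]
        rw [h4, west_Fb]
        field_simp
        ring
      rw [h2] at h1
      have h3 := (ih c').2
      have e : EW σ y (k + 1) b c - west_Fb y c (T σ (k + 1) b) =
          yw y U * (EW σ y k c' c - west_Fb y c (T σ k c')) +
          (EW σ y (k + 1) b c - yw y U * (EW σ y k c' c - west_Fb y c (T σ k c')) -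
          west_Fb y c (T σ (k + 1) b)) := by ring
      rw [e]
      refine (norm_add_le _ _).trans ?_
      rw [norm_mul, hyw, one_mul]
      linarith

theorem st_WEST (hWUP : ST_WUP) : ST_WEST := by
  intro d σ M θ L f gam h
  obtain ⟨C0, CU, hC0, hCU, hU⟩ := hWUP d σ M θ L f gam h
  obtain ⟨c₀, hc₀, hlow⟩ := west_low h.toPFD
  have hσ := h.ne
  have hθ := h.one_lt
  have hθ0 : 0 < θ := by linarith
  set κ := Real.sqrt (CU * θ / c₀ ^ 2) with hκ
  have hκ0 : 0 ≤ κ := Real.sqrt_nonneg _
  set s : ℝ := ∑ a, ((σ a).length : ℝ) with hs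
  have hs0 : 0 ≤ s := sum_nonneg fun a _ => Nat.cast_nonneg _
  have hsa : ∀ a, ((σ a).length : ℝ) ≤ s := fun a =>
    single_le_sum (f := fun a => ((σ a).length : ℝ)) (fun a _ => Nat.cast_nonneg _) (mem_univ a)
  refine ⟨C0, (1 + s) * (1 + 2 * κ), hC0, by positivity, fun y hy => ?_⟩
  have hyw : ∀ U : List (Fin d), ‖yw y U‖ = 1 := by
    intro U
    induction U with
    | nil => simp [yw]
    | cons x U ih =>
      simp only [yw, List.map_cons, List.prod_cons] at ih ⊢
      rw [norm_mul, hy, ih, one_mul]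
  set S : ℕ → ℝ := fun i => Real.sqrt (θ ^ i * VV gam L y (C0 * θ ^ i)) with hS
  have hS0 : ∀ i, 0 ≤ S i := fun i => Real.sqrt_nonneg _
  have hSS0 : ∀ k, 0 ≤ ∑ i ∈ range k, S i := fun k => sum_nonneg fun i _ => hS0 i
  -- tiles
  have htile : ∀ k b c, ‖EW σ y k b c‖ ≤ (1 + 2 * κ) * (1 + ∑ i ∈ range (k + 1), S i) := by
    intro k b c
    obtain ⟨h1, h2⟩ := west_main hσ hθ hc₀ hCU hlow y hy (hU y hy) k b c
    have e : EW σ y k b c = west_Fb y c (T σ k b) + (EW σ y k b c - west_Fb y c (T σ k b)) := by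
      ring
    rw [e]
    refine (norm_add_le _ _).trans ?_
    have h3 := hSS0 (k + 1)
    have h4 : 0 ≤ κ * ∑ i ∈ range (k + 1), S i := by positivity
    calc ‖west_Fb y c (T σ k b)‖ + ‖EW σ y k b c - west_Fb y c (T σ k b)‖
        ≤ κ * (∑ i ∈ range (k + 1), S i) + (1 + κ * ∑ i ∈ range (k + 1), S i) :=
          add_le_add h1 h2
      _ ≤ (1 + 2 * κ) * (1 + ∑ i ∈ range (k + 1), S i) := by nlinarith
  -- concatenations of tiles
  have hflat : ∀ k (v : List (Fin d)) c, ‖WS y (Pi.single c 1) (v.flatMap (T σ k))‖ ≤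
      v.length * ((1 + 2 * κ) * (1 + ∑ i ∈ range (k + 1), S i)) := by
    intro k v c
    induction v with
    | nil => simp [WS]
    | cons x v ih =>
      rw [List.flatMap_cons, WS_append, List.length_cons]
      refine (norm_add_le _ _).trans ?_
      rw [norm_mul, hyw, one_mul]
      have h1 := htile k x c
      rw [EW] at h1
      push_cast
      linarith
  have hw1 : ∀ (x c : Fin d), ‖WS y (Pi.single c 1) [x]‖ ≤ 1 := by
    intro x c
    rw [WS, WS, mul_zero, add_zero]
    by_cases hbc : x = c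
    · subst hbc; simp
    · rw [Pi.single_eq_of_ne hbc]; simp
  have hw0 : ∀ (c : Fin d), ‖WS y (Pi.single c 1) []‖ ≤ 0 := by
    intro c; simp [WS]
  -- recursion for prefixes and suffixes
  set C1 := (1 + s) * (1 + 2 * κ) with hC1
  have hC1a : 1 ≤ C1 := by rw [hC1]; nlinarith [mul_nonneg hs0 hκ0]
  have hC1b : s * (1 + 2 * κ) ≤ C1 := by rw [hC1]; nlinarith
  set P : ℕ → ℝ := fun k => C1 * (((k : ℝ) + 1) + ∑ i ∈ range (k + 1), ((k : ℝ) - i + 1) * S i)
    with hP
  have hPk0 : ∀ k, 0 ≤ P k := by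
    intro k
    rw [hP]
    refine mul_nonneg (by linarith) (add_nonneg (by positivity) (sum_nonneg fun i hi => ?_))
    rw [mem_range] at hi
    have : (i : ℝ) ≤ k := by exact_mod_cast (by omega : i ≤ k)
    exact mul_nonneg (by linarith) (hS0 i)
  have hP0 : 1 ≤ P 0 := by
    rw [hP]
    simp only [Nat.cast_zero, zero_add, sum_range_one, sub_zero, zero_add, one_mul]
    nlinarith [hS0 0]
  have hPs : ∀ k, P k + s * ((1 + 2 * κ) * (1 + ∑ i ∈ range (k + 1), S i)) ≤ P (k + 1) := by
    intro k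
    have e : P (k + 1) - P k = C1 * (1 + ∑ i ∈ range (k + 1), S i) + C1 * S (k + 1) := by
      rw [hP]
      simp only
      rw [sum_range_succ (fun i => (((k + 1 : ℕ) : ℝ) - i + 1) * S i) (k + 1)]
      have e1 : ∑ i ∈ range (k + 1), (((k + 1 : ℕ) : ℝ) - i + 1) * S i =
          ∑ i ∈ range (k + 1), ((k : ℝ) - i + 1) * S i + ∑ i ∈ range (k + 1), S i := by
        rw [← sum_add_distrib]
        refine sum_congr rfl fun i _ => ?_
        push_cast
        ring
      rw [e1]
      push_cast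
      ring
    have h1 : s * ((1 + 2 * κ) * (1 + ∑ i ∈ range (k + 1), S i)) ≤
        C1 * (1 + ∑ i ∈ range (k + 1), S i) := by
      rw [← mul_assoc]
      exact mul_le_mul_of_nonneg_right hC1b (by linarith [hSS0 (k + 1)])
    have h2 : 0 ≤ C1 * S (k + 1) := mul_nonneg (by linarith) (hS0 _)
    linarith
  have hpre : ∀ k b c p, p <+: T σ k b → ‖WS y (Pi.single c 1) p‖ ≤ P k := by
    intro k
    induction k with
    | zero =>
      intro b c p hp
      rw [T_zero] at hp
      rcases List.prefix_cons_iff.1 hp with rfl | ⟨t, rfl, ht⟩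
      · linarith [hw0 c]
      · have : t = [] := List.prefix_nil.1 ht
        subst this
        exact (hw1 b c).trans hP0
    | succ k ih =>
      intro b c p hp
      rw [T_succ] at hp
      obtain ⟨v', p', e, hv, hp'⟩ := pre_flatMap (T σ k) (σ b) p hp
      rw [e, WS_append]
      refine (norm_add_le _ _).trans ?_
      rw [norm_mul, hyw, one_mul]
      have h2 := hflat k v' c
      have h3 : (v'.length : ℝ) ≤ s := le_trans (by exact_mod_cast hv.length_le) (hsa b)
      have h4 : ‖WS y (Pi.single c 1) p'‖ ≤ P k := by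
        rcases hp' with rfl | ⟨x, _, hx⟩
        · exact (hw0 c).trans (hPk0 k)
        · exact ih x c p' hx
      have h5 : (v'.length : ℝ) * ((1 + 2 * κ) * (1 + ∑ i ∈ range (k + 1), S i)) ≤
          s * ((1 + 2 * κ) * (1 + ∑ i ∈ range (k + 1), S i)) :=
        mul_le_mul_of_nonneg_right h3 (mul_nonneg (by linarith) (by linarith [hSS0 (k + 1)]))
      linarith [hPs k]
  have hsuf : ∀ k b c p, p <:+ T σ k b → ‖WS y (Pi.single c 1) p‖ ≤ P k := by
    intro k
    induction k with
    | zero =>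
      intro b c p hp
      rw [T_zero] at hp
      rcases List.suffix_cons_iff.1 hp with rfl | h2
      · exact (hw1 b c).trans hP0
      · have : p = [] := List.suffix_nil.1 h2
        subst this
        linarith [hw0 c]
    | succ k ih =>
      intro b c p hp
      rw [T_succ] at hp
      obtain ⟨p', v', e, hv, hp'⟩ := suf_flatMap (T σ k) (σ b) p hp
      rw [e, WS_append]
      refine (norm_add_le _ _).trans ?_
      rw [norm_mul, hyw, one_mul]
      have h2 := hflat k v' c
      have h3 : (v'.length : ℝ) ≤ s := le_trans (by exact_mod_cast hv.length_le) (hsa b)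
      have h4 : ‖WS y (Pi.single c 1) p'‖ ≤ P k := by
        rcases hp' with rfl | ⟨x, _, hx⟩
        · exact (hw0 c).trans (hPk0 k)
        · exact ih x c p' hx
      have h5 : (v'.length : ℝ) * ((1 + 2 * κ) * (1 + ∑ i ∈ range (k + 1), S i)) ≤
          s * ((1 + 2 * κ) * (1 + ∑ i ∈ range (k + 1), S i)) :=
        mul_le_mul_of_nonneg_right h3 (mul_nonneg (by linarith) (by linarith [hSS0 (k + 1)]))
      linarith [hPs k]
  intro k
  refine ⟨fun b c => (htile k b c).trans ?_, fun b c p hp => ?_⟩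
  · have h1 : 1 + 2 * κ ≤ C1 := by rw [hC1]; nlinarith [mul_nonneg hs0 hκ0]
    exact mul_le_mul_of_nonneg_right h1 (by linarith [hSS0 (k + 1)])
  · rcases hp with hp | hp
    · exact hpre k b c p hp
    · exact hsuf k b c p hp

end Pool.Agent.Helper97.FS
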