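import Pool.Agent.Helper97.FS.Stmts
import Pool.Agent.Helper27.FS.WEST

set_option autoImplicit false

namespace Pool.Agent.Helper97.FS

open Finset MeasureTheory Filter Topology
open scoped ComplexConjugate
open Pool.Agent.Helper97.Sub

variable {d : ℕ}

lemma idc_fourier_int (m : ℤ) :
    ∫ s : AddCircle (1 : ℝ), fourier m s ∂AddCircle.haarAddCircle = if m = 0 then 1 else 0 := by
  split_ifs with h
  · subst h
    simp only [fourier_zero]
    simp
  · exact integral_eq_zero_of_add_right_eq_neg (μ := AddCircle.haarAddCircle)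
      (fourier_add_half_inv_index h (Fact.out : (0 : ℝ) < 1))

lemma idc_integrable {g : AddCircle (1 : ℝ) → ℂ} (hg : Continuous g) :
    Integrable g AddCircle.haarAddCircle :=
  (BoundedContinuousFunction.mkOfCompact (⟨g, hg⟩ : C(AddCircle (1 : ℝ), ℂ))).integrable
    AddCircle.haarAddCircle

lemma idc_zc_pow (ω : AddCircle (1 : ℝ)) (n : ℕ) : zc ω ^ n = fourier (-(n : ℤ)) ω := by
  rw [zc, ← map_pow, fourier_neg]
  congr 1
  induction n with
  | zero => simp
  | succ n ih => rw [pow_succ, ih, ← fourier_add]; push_cast; rfl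

lemma idc_cont_zc : Continuous (fun ω : AddCircle (1 : ℝ) => zc ω) := by
  unfold zc
  exact Complex.continuous_conj.comp (fourier 1).continuous

lemma idc_cont_tp (N : ℕ) (φ : ℤ → ℂ) : Continuous (fun ω => tp N φ ω) := by
  unfold tp
  exact continuous_finsetSum _ fun j _ => continuous_const.mul (fourier j).continuous

lemma idc_Ek (σ : Fin d → List (Fin d)) (G : List (Fin d) → ℂ) (w k : ℕ) (c : Fin d) :
    ∃ a : ℕ → ℂ, ∀ ω, Ek σ G w k c ω =
      ∑ l ∈ range (T σ k c).length, a l * fourier (-(l : ℤ)) ω := by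
  refine ⟨fun l => if l + w ≤ (T σ k c).length then G (((T σ k c).drop l).take w) else 0,
    fun ω => ?_⟩
  rw [Ek, TS, PS]
  refine sum_congr rfl fun l _ => ?_
  rw [← idc_zc_pow, ite_mul, zero_mul]

lemma idc_cont_Ek (σ : Fin d → List (Fin d)) (G : List (Fin d) → ℂ) (w k : ℕ) (c : Fin d) :
    Continuous (fun ω => Ek σ G w k c ω) := by
  obtain ⟨a, ha⟩ := idc_Ek σ G w k c
  simp only [ha]
  exact continuous_finsetSum _ fun j _ => continuous_const.mul (fourier _).continuous

/-- the integrals -/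
noncomputable def idc_I (σ : Fin d → List (Fin d)) (G : List (Fin d) → ℂ) (w k N : ℕ)
    (φ : ℤ → ℂ) (c e : Fin d) (j : Fin d → ℤ) : ℂ :=
  ∫ ω, tp N φ ω * Ek σ G w k c ω * conj (Ek σ G w k e ω) * fourier (lk σ k j) ω
    ∂AddCircle.haarAddCircle

lemma idc_I_zero (σ : Fin d → List (Fin d)) (G : List (Fin d) → ℂ) (w k N : ℕ)
    (φ : ℤ → ℂ) (c e : Fin d) (j : Fin d → ℤ)
    (hj : (N : ℤ) + (T σ k c).length + (T σ k e).length < |lk σ k j|) :
    idc_I σ G w k N φ c e j = 0 := by
  obtain ⟨a, ha⟩ := idc_Ek σ G w k c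
  obtain ⟨b, hb⟩ := idc_Ek σ G w k e
  have h1 : ∀ ω : AddCircle (1 : ℝ),
      tp N φ ω * Ek σ G w k c ω * conj (Ek σ G w k e ω) * fourier (lk σ k j) ω =
      ∑ n ∈ Icc (-(N : ℤ)) N, ∑ l ∈ range (T σ k c).length, ∑ l' ∈ range (T σ k e).length,
        (φ n * a l * conj (b l')) * fourier (n - l + l' + lk σ k j) ω := by
    intro ω
    rw [ha, hb, tp, map_sum, sum_mul_sum, sum_mul, sum_mul]
    refine sum_congr rfl fun n _ => ?_
    rw [sum_mul_sum, sum_mul]
    refine sum_congr rfl fun l _ => ?_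
    rw [sum_mul]
    refine sum_congr rfl fun l' _ => ?_
    rw [map_mul, ← fourier_neg, neg_neg, fourier_add, fourier_add, sub_eq_add_neg, fourier_add]
    ring
  unfold idc_I
  simp only [h1]
  rw [integral_finsetSum]
  swap
  · intro n _
    exact idc_integrable (continuous_finsetSum _ fun l _ => continuous_finsetSum _ fun l' _ =>
      continuous_const.mul (fourier _).continuous)
  apply sum_eq_zero
  intro n hn
  rw [integral_finsetSum]
  swap
  · intro n _
    exact idc_integrable (continuous_finsetSum _ fun l' _ =>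
      continuous_const.mul (fourier _).continuous)
  apply sum_eq_zero
  intro l hl
  rw [integral_finsetSum]
  swap
  · intro n _
    exact idc_integrable (continuous_const.mul (fourier _).continuous)
  apply sum_eq_zero
  intro l' hl'
  rw [integral_const_mul, idc_fourier_int, if_neg, mul_zero]
  intro h0
  rw [mem_Icc] at hn
  rw [mem_range] at hl hl'
  have hl1 : (l : ℤ) < (T σ k c).length := by exact_mod_cast hl
  have hl2 : (l' : ℤ) < (T σ k e).length := by exact_mod_cast hl'
  have hl3 : (0 : ℤ) ≤ l := Int.natCast_nonneg _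
  have hl4 : (0 : ℤ) ≤ l' := Int.natCast_nonneg _
  rcases le_total 0 (lk σ k j) with h | h
  · rw [abs_of_nonneg h] at hj
    omega
  · rw [abs_of_nonpos h] at hj
    omega

lemma idc_ws (y E : Fin d → ℂ) (V : List (Fin d)) :
    WS y E V = ∑ i ∈ range V.length, yw y (V.take i) *
      ∑ c, if V[i]? = some c then E c else 0 := by
  induction V with
  | nil => simp [WS]
  | cons x V ih =>
    rw [WS, List.length_cons, sum_range_succ', add_comm]
    congr 1
    · rw [ih, mul_sum]
      refine sum_congr rfl fun i _ => ?_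
      rw [List.take_succ_cons, ← mul_assoc]
      simp only [yw, List.map_cons, List.prod_cons, List.getElem?_cons_succ]
    · simp only [List.take_zero, yw, List.map_nil, List.prod_nil, one_mul,
        List.getElem?_cons_zero, Option.some.injEq, sum_ite_eq, mem_univ, if_true]

lemma idc_lk_add (σ : Fin d → List (Fin d)) (k : ℕ) (i j : Fin d → ℤ) :
    lk σ k (i + j) = lk σ k i + lk σ k j := by
  simp only [lk, Pi.add_apply, add_mul, sum_add_distrib]

lemma idc_lk_sub (σ : Fin d → List (Fin d)) (k : ℕ) (i j : Fin d → ℤ) :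
    lk σ k (i - j) = lk σ k i - lk σ k j := by
  simp only [lk, Pi.sub_apply, sub_mul, sum_sub_distrib]

lemma idc_lk_single (σ : Fin d → List (Fin d)) (k : ℕ) (c : Fin d) :
    lk σ k (ab [c]) = (T σ k c).length := by
  unfold lk ab
  rw [sum_eq_single c]
  · simp
  · intro b _ hb
    have : List.count b [c] = 0 := by
      rw [List.count_eq_zero]
      simpa using hb
    rw [this]
    simp
  · simp

lemma idc_yw (σ : Fin d → List (Fin d)) (k : ℕ) (ω : AddCircle (1 : ℝ)) (U : List (Fin d)) :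
    yw (fun c => zc ω ^ (T σ k c).length) U = fourier (-(lk σ k (ab U))) ω := by
  induction U with
  | nil => simp [yw, west_ab_nil, lk]
  | cons c U ih =>
    rw [show (c :: U) = [c] ++ U from rfl, yw_append, ih, west_ab_append, idc_lk_add,
      neg_add, fourier_add, idc_lk_single]
    congr 1
    simp only [yw, List.map_cons, List.map_nil, List.prod_cons, List.prod_nil, mul_one]
    exact idc_zc_pow ω _

lemma idc_expand (σ : Fin d → List (Fin d)) (G : List (Fin d) → ℂ) (w k N : ℕ)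
    (φ : ℤ → ℂ) (V : List (Fin d)) (ω : AddCircle (1 : ℝ)) :
    tp N φ ω * ((‖WS (fun c => zc ω ^ (T σ k c).length)
        (fun c => Ek σ G w k c ω) V‖ ^ 2 : ℝ) : ℂ) =
    ∑ c, ∑ e, ∑ p ∈ range V.length ×ˢ range V.length,
      (if V[p.1]? = some c ∧ V[p.2]? = some e then
        tp N φ ω * Ek σ G w k c ω * conj (Ek σ G w k e ω) *
          fourier (lk σ k (ab (V.take p.2) - ab (V.take p.1))) ω else 0) := by
  have hR : ∑ c, ∑ e, ∑ p ∈ range V.length ×ˢ range V.length,
      (if V[p.1]? = some c ∧ V[p.2]? = some e then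
        tp N φ ω * Ek σ G w k c ω * conj (Ek σ G w k e ω) *
          fourier (lk σ k (ab (V.take p.2) - ab (V.take p.1))) ω else 0) =
      ∑ p ∈ range V.length ×ˢ range V.length, ∑ c, ∑ e,
      (if V[p.1]? = some c ∧ V[p.2]? = some e then
        tp N φ ω * Ek σ G w k c ω * conj (Ek σ G w k e ω) *
          fourier (lk σ k (ab (V.take p.2) - ab (V.take p.1))) ω else 0) :=
    (sum_congr rfl fun c _ => sum_comm).trans sum_comm
  rw [hR, idc_ws]
  push_cast
  rw [← Complex.mul_conj', map_sum, sum_mul_sum, ← sum_product', mul_sum]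
  refine sum_congr rfl fun p _ => ?_
  rw [idc_yw, idc_yw, idc_lk_sub, map_mul, map_sum, sub_eq_add_neg, fourier_add]
  have h1 : conj (fourier (-(lk σ k (ab (V.take p.2)))) ω) =
      fourier (lk σ k (ab (V.take p.2))) ω := by rw [← fourier_neg, neg_neg]
  rw [h1]
  have h2 : tp N φ ω * ((fourier (-(lk σ k (ab (V.take p.1)))) ω *
      ∑ c, if V[p.1]? = some c then Ek σ G w k c ω else 0) *
      (fourier (lk σ k (ab (V.take p.2))) ω *
      ∑ e, conj (if V[p.2]? = some e then Ek σ G w k e ω else 0))) =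
      (tp N φ ω * (fourier (lk σ k (ab (V.take p.2))) ω *
        fourier (-(lk σ k (ab (V.take p.1)))) ω)) *
      ((∑ c, if V[p.1]? = some c then Ek σ G w k c ω else 0) *
      ∑ e, conj (if V[p.2]? = some e then Ek σ G w k e ω else 0)) := by ring
  rw [h2, sum_mul_sum, mul_sum]
  refine sum_congr rfl fun c _ => ?_
  rw [mul_sum]
  refine sum_congr rfl fun e _ => ?_
  by_cases hc : V[p.1]? = some c
  · by_cases he : V[p.2]? = some e
    · rw [if_pos hc, if_pos he, if_pos ⟨hc, he⟩]; ring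
    · have hn : ¬ (V[p.1]? = some c ∧ V[p.2]? = some e) := fun h => he h.2
      rw [if_neg he, if_neg hn, map_zero, mul_zero, mul_zero]
  · have hn : ¬ (V[p.1]? = some c ∧ V[p.2]? = some e) := fun h => hc h.1
    rw [if_neg hc, if_neg hn, zero_mul, mul_zero]

lemma idc_sign (V : List (Fin d)) (i i' : ℕ) :
    0 ≤ ab (V.take i') - ab (V.take i) ∨ ab (V.take i') - ab (V.take i) ≤ 0 := by
  have h : ∀ i i' : ℕ, i ≤ i' → ab (V.take i) ≤ ab (V.take i') := by
    intro i i' hi a
    simp only [ab]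
    have : (V.take i).count a ≤ (V.take i').count a := by
      have h1 : V.take i <+: V.take i' := List.take_prefix_take_left hi
      exact h1.sublist.count_le a
    exact Nat.cast_le.2 this
  rcases le_total i i' with hi | hi
  · left; exact sub_nonneg.2 (h i i' hi)
  · right; exact sub_nonpos.2 (h i' i hi)

/-- the box -/
noncomputable def idc_J (d R : ℕ) : Finset (Fin d → ℤ) :=
  Fintype.piFinset fun _ => Icc (-(R : ℤ)) R

lemma idc_lk_large {σ : Fin d → List (Fin d)} {k : ℕ} (hpos : ∀ a, 0 < (T σ k a).length)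
    (R : ℕ) (j : Fin d → ℤ) (hj : 0 ≤ j ∨ j ≤ 0) (hJ : j ∉ idc_J d R) :
    (R : ℤ) < |lk σ k j| := by
  have hex : ∃ a, (R : ℤ) < |j a| := by
    by_contra hne
    push Not at hne
    apply hJ
    rw [idc_J, Fintype.mem_piFinset]
    intro a
    rw [mem_Icc]
    exact abs_le.1 (hne a)
  obtain ⟨a, ha⟩ := hex
  have hp : (1 : ℤ) ≤ ((T σ k a).length : ℤ) := by exact_mod_cast hpos a
  have key : ∀ j : Fin d → ℤ, 0 ≤ j → (R : ℤ) < |j a| → (R : ℤ) < lk σ k j := by
    intro j hj ha
    rw [abs_of_nonneg (hj a)] at ha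
    have h1 : j a * ((T σ k a).length : ℤ) ≤ lk σ k j := by
      unfold lk
      exact single_le_sum (f := fun a => j a * (((T σ k a).length : ℕ) : ℤ))
        (fun b _ => mul_nonneg (hj b) (Int.natCast_nonneg _)) (mem_univ a)
    have h2 : j a ≤ j a * ((T σ k a).length : ℤ) := le_mul_of_one_le_right (hj a) hp
    linarith
  rcases hj with hj | hj
  · exact (key j hj ha).trans_le (le_abs_self _)
  · have h1 := key (-j) (neg_nonneg.2 hj) (by rw [Pi.neg_apply, abs_neg]; exact ha)
    have h2 : lk σ k (-j) = - lk σ k j := by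
      simp only [lk, Pi.neg_apply, neg_mul, sum_neg_distrib]
    rw [h2] at h1
    exact h1.trans_le (neg_le_abs _)

lemma idc_cnt_zero (V : List (Fin d)) (c e : Fin d) (j : Fin d → ℤ)
    (hj : ¬ (0 ≤ j ∨ j ≤ 0)) : cnt V c e j = 0 := by
  unfold cnt
  rw [card_eq_zero, filter_eq_empty_iff]
  rintro p _ ⟨_, _, h⟩
  exact hj (h ▸ idc_sign V p.1 p.2)

lemma idc_int (σ : Fin d → List (Fin d)) (G : List (Fin d) → ℂ) (w k N : ℕ)
    (φ : ℤ → ℂ) (hpos : ∀ a, 0 < (T σ k a).length) (R : ℕ)
    (hR : ∀ c e, N + (T σ k c).length + (T σ k e).length ≤ R) (V : List (Fin d)) :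
    ∫ ω, tp N φ ω * ((‖WS (fun c => zc ω ^ (T σ k c).length)
        (fun c => Ek σ G w k c ω) V‖ ^ 2 : ℝ) : ℂ) ∂AddCircle.haarAddCircle =
    ∑ j ∈ idc_J d R, ∑ c, ∑ e, (cnt V c e j : ℂ) * idc_I σ G w k N φ c e j := by
  have hcont : ∀ c e r, Continuous (fun ω => tp N φ ω * Ek σ G w k c ω *
      conj (Ek σ G w k e ω) * fourier r ω) := by
    intro c e r
    exact (((idc_cont_tp N φ).mul (idc_cont_Ek σ G w k c)).mul
      (Complex.continuous_conj.comp (idc_cont_Ek σ G w k e))).mul (fourier r).continuous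
  have hcont' : ∀ c e (p : ℕ × ℕ), Continuous (fun ω => (if V[p.1]? = some c ∧ V[p.2]? = some e
      then tp N φ ω * Ek σ G w k c ω * conj (Ek σ G w k e ω) *
          fourier (lk σ k (ab (V.take p.2) - ab (V.take p.1))) ω else 0)) := by
    intro c e p
    split_ifs
    · exact hcont c e _
    · exact continuous_const
  simp only [idc_expand]
  rw [integral_finsetSum]
  swap
  · intro c _
    exact idc_integrable (continuous_finsetSum _ fun e _ => continuous_finsetSum _ fun p _ =>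
      hcont' c e p)
  have hswap : ∑ j ∈ idc_J d R, ∑ c, ∑ e, (cnt V c e j : ℂ) * idc_I σ G w k N φ c e j =
      ∑ c, ∑ e, ∑ j ∈ idc_J d R, (cnt V c e j : ℂ) * idc_I σ G w k N φ c e j := by
    rw [sum_comm]
    refine sum_congr rfl fun c _ => ?_
    rw [sum_comm]
  rw [hswap]
  refine sum_congr rfl fun c _ => ?_
  rw [integral_finsetSum]
  swap
  · intro e _
    exact idc_integrable (continuous_finsetSum _ fun p _ => hcont' c e p)
  refine sum_congr rfl fun e _ => ?_
  rw [integral_finsetSum]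
  swap
  · intro p _
    exact idc_integrable (hcont' c e p)
  set S := (range V.length ×ˢ range V.length).filter
    (fun p => V[p.1]? = some c ∧ V[p.2]? = some e) with hS
  set g : ℕ × ℕ → (Fin d → ℤ) := fun p => ab (V.take p.2) - ab (V.take p.1) with hg
  have h1 : ∑ p ∈ range V.length ×ˢ range V.length, ∫ ω, (if V[p.1]? = some c ∧
      V[p.2]? = some e then tp N φ ω * Ek σ G w k c ω * conj (Ek σ G w k e ω) *
          fourier (lk σ k (ab (V.take p.2) - ab (V.take p.1))) ω else 0)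
          ∂AddCircle.haarAddCircle =
      ∑ p ∈ S, idc_I σ G w k N φ c e (g p) := by
    rw [hS, sum_filter]
    refine sum_congr rfl fun p _ => ?_
    split_ifs with h
    · rfl
    · simp
  rw [h1]
  have h2 : ∑ p ∈ S, idc_I σ G w k N φ c e (g p) =
      ∑ p ∈ S with g p ∈ idc_J d R, idc_I σ G w k N φ c e (g p) := by
    rw [sum_filter (fun p => g p ∈ idc_J d R)]
    refine sum_congr rfl fun p _ => ?_
    split_ifs with h
    · rfl
    · apply idc_I_zero
      refine lt_of_le_of_lt ?_ (idc_lk_large hpos R (g p) (idc_sign V p.1 p.2) h)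
      exact_mod_cast hR c e
  rw [h2, ← sum_fiberwise_of_maps_to (s := {p ∈ S | g p ∈ idc_J d R}) (t := idc_J d R)
    (g := g) (fun p hp => (mem_filter.1 hp).2)]
  refine sum_congr rfl fun j hj => ?_
  have h3 : ∀ p ∈ {p ∈ {p ∈ S | g p ∈ idc_J d R} | g p = j}, idc_I σ G w k N φ c e (g p) =
      idc_I σ G w k N φ c e j := fun p hp => by rw [(mem_filter.1 hp).2]
  rw [sum_congr rfl h3, sum_const, nsmul_eq_mul]
  congr 2
  unfold cnt
  congr 1
  ext p
  simp only [mem_filter, hS, hg]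
  constructor
  · rintro ⟨⟨⟨h4, h5, h6⟩, h7⟩, h8⟩
    exact ⟨h4, h5, h6, h8⟩
  · rintro ⟨h4, h5, h6, h8⟩
    exact ⟨⟨⟨h4, h5, h6⟩, by rw [h8]; exact hj⟩, h8⟩

lemma idc_len {σ : Fin d → List (Fin d)} {M : Matrix (Fin d) (Fin d) ℤ} {θ : ℝ}
    {L f : Fin d → ℝ} (h : PFD σ M θ L f) (a : Fin d) :
    Tendsto (fun m : ℕ => ((T σ m a).length : ℝ) / θ ^ m) atTop (𝓝 (L a)) := by
  have h1 : Tendsto (fun m : ℕ => ∑ b, (((M ^ m) b a : ℤ) : ℝ) / θ ^ m) atTop
      (𝓝 (∑ b, f b * L a)) := tendsto_finsetSum _ fun b _ => h.lim a b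
  rw [← sum_mul, h.fsum, one_mul] at h1
  refine h1.congr fun m => ?_
  rw [← sum_div]
  congr 1
  have h2 := length_T h.cntM m a
  rw [ell] at h2
  have h3 : (((T σ m a).length : ℤ) : ℝ) = ((∑ b, (M ^ m) b a : ℤ) : ℝ) := by rw [h2]
  rw [Int.cast_natCast, Int.cast_sum] at h3
  rw [h3]

lemma idc_ratio {σ : Fin d → List (Fin d)} {M : Matrix (Fin d) (Fin d) ℤ} {θ : ℝ}
    {L f : Fin d → ℝ} (h : PFD σ M θ L f) (a : Fin d) (k : ℕ) :
    Tendsto (fun m : ℕ => ((T σ m a).length : ℝ) / ((T σ (m + k) a).length : ℝ)) atTop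
      (𝓝 ((θ ^ k)⁻¹)) := by
  have h1 := idc_len h a
  have h2 : Tendsto (fun m : ℕ => ((T σ (m + k) a).length : ℝ) / θ ^ (m + k)) atTop (𝓝 (L a)) :=
    h1.comp (tendsto_add_atTop_nat k)
  have hθ : 0 < θ := by linarith [h.one_lt]
  have h3 := (h1.div h2 (h.Lpos a).ne').mul_const ((θ ^ k)⁻¹)
  rw [div_self (h.Lpos a).ne', one_mul] at h3
  refine h3.congr fun m => ?_
  obtain ⟨c₀, hc₀, hlow⟩ := west_low h
  have h4 : (0:ℝ) < ((T σ (m + k) a).length : ℝ) :=
    lt_of_lt_of_le (by positivity) (hlow (m + k) a)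
  have h5 : θ ^ m ≠ 0 := (pow_pos hθ m).ne'
  have h6 : θ ^ k ≠ 0 := (pow_pos hθ k).ne'
  simp only [Pi.div_apply]
  rw [pow_add]
  field_simp

theorem st_IDC : ST_IDC := by
  intro d σ M θ L f gam h G w a k N φ
  obtain ⟨c₀, hc₀, hlow⟩ := west_low h.toPFD
  have hθ : 0 < θ := by linarith [h.one_lt]
  have hpos : ∀ k a, 0 < (T σ k a).length := by
    intro k a
    have : (0:ℝ) < ((T σ k a).length : ℝ) := lt_of_lt_of_le (by positivity) (hlow k a)
    exact_mod_cast this
  set R : ℕ := N + (∑ c, (T σ k c).length) + (∑ c, (T σ k c).length) with hRdef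
  have hR : ∀ c e, N + (T σ k c).length + (T σ k e).length ≤ R := by
    intro c e
    have h1 : (T σ k c).length ≤ ∑ c, (T σ k c).length :=
      single_le_sum (f := fun c => (T σ k c).length) (fun _ _ => Nat.zero_le _) (mem_univ c)
    have h2 : (T σ k e).length ≤ ∑ c, (T σ k c).length :=
      single_le_sum (f := fun c => (T σ k c).length) (fun _ _ => Nat.zero_le _) (mem_univ e)
    omega
  have hgam : ∀ c e j, ¬ (0 ≤ j ∨ j ≤ 0) → gam c e j = 0 := by
    intro c e j hj
    have h1 := h.gl a c e j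
    have h2 : (fun N : ℕ => (cnt (T σ N a) c e j : ℝ) / ((T σ N a).length : ℝ)) = fun _ => 0 := by
      funext N
      rw [idc_cnt_zero _ _ _ _ hj]
      simp
    rw [h2] at h1
    exact tendsto_nhds_unique h1 tendsto_const_nhds
  have hfin : (∑ᶠ j : Fin d → ℤ, ∑ c, ∑ e, (gam c e j : ℂ) * ((θ ^ k : ℝ) : ℂ)⁻¹ *
      ∫ ω, tp N φ ω * Ek σ G w k c ω * conj (Ek σ G w k e ω) * fourier (lk σ k j) ω
        ∂AddCircle.haarAddCircle) =
      ∑ j ∈ idc_J d R, ∑ c, ∑ e, (gam c e j : ℂ) * ((θ ^ k : ℝ) : ℂ)⁻¹ *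
        idc_I σ G w k N φ c e j := by
    rw [finsum_eq_sum_of_support_subset (s := idc_J d R)]
    · rfl
    · intro j hj
      by_contra hJ
      apply hj
      refine sum_eq_zero fun c _ => sum_eq_zero fun e _ => ?_
      by_cases hs : 0 ≤ j ∨ j ≤ 0
      · have h1 := idc_I_zero σ G w k N φ c e j (lt_of_le_of_lt (by exact_mod_cast hR c e)
          (idc_lk_large (hpos k) R j hs (by simpa using hJ)))
        rw [idc_I] at h1
        rw [h1, mul_zero]
      · rw [hgam c e j hs]
        simp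
  rw [hfin]
  have hint := idc_int σ G w k N φ (hpos k) R hR
  simp only [hint]
  simp only [sum_div]
  refine tendsto_finsetSum _ fun j _ => tendsto_finsetSum _ fun c _ =>
    tendsto_finsetSum _ fun e _ => ?_
  have h1 : Tendsto (fun m : ℕ => ((((cnt (T σ m a) c e j : ℝ) / ((T σ m a).length : ℝ)) *
      (((T σ m a).length : ℝ) / ((T σ (m + k) a).length : ℝ)) : ℝ) : ℂ) *
      idc_I σ G w k N φ c e j) atTop
      (𝓝 (((gam c e j * (θ ^ k)⁻¹ : ℝ) : ℂ) * idc_I σ G w k N φ c e j)) := by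
    refine Tendsto.mul_const _ ?_
    exact (Complex.continuous_ofReal.tendsto _).comp ((h.gl a c e j).mul (idc_ratio h.toPFD a k))
  have e1 : ((gam c e j * (θ ^ k)⁻¹ : ℝ) : ℂ) = (gam c e j : ℂ) * ((θ ^ k : ℝ) : ℂ)⁻¹ := by
    push_cast; ring
  rw [e1] at h1
  refine h1.congr fun m => ?_
  have h4 : (((T σ m a).length : ℕ) : ℂ) ≠ 0 := by exact_mod_cast (hpos m a).ne'
  have h5 : (((T σ (m + k) a).length : ℕ) : ℂ) ≠ 0 := by exact_mod_cast (hpos (m + k) a).ne'
  push_cast
  field_simp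

end Pool.Agent.Helper97.FS
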